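import Mathlib

set_option autoImplicit false

namespace Pool.Agent.H.MP_c5e1a2_co

/-- Words of length `T` on `S` states without self-loops. -/
def Word (S T : ℕ) := {w : Fin T → Fin S // ∀ s t : Fin T, t.val = s.val + 1 → w s ≠ w t}

instance (S T : ℕ) : Fintype (Word S T) := by unfold Word; infer_instance
instance (S T : ℕ) : DecidableEq (Word S T) := by unfold Word; infer_instance

/-- Entry of the design matrix: the number of transitions from `i` to `j` in `w`. -/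
def cnt {S T : ℕ} (w : Word S T) (i j : Fin S) : ℕ :=
  (Finset.univ.filter fun p : Fin T × Fin T => p.2.val = p.1.val + 1 ∧ w.1 p.1 = i ∧ w.1 p.2 = j).card

def L : Fin 8 → Word 6 4 :=
  ![⟨![0, 2, 0, 2], by decide⟩, ⟨![2, 0, 2, 0], by decide⟩, ⟨![1, 3, 1, 3], by decide⟩,
    ⟨![3, 1, 3, 1], by decide⟩, ⟨![5, 0, 2, 0], by decide⟩, ⟨![4, 5, 0, 2], by decide⟩,
    ⟨![5, 3, 1, 3], by decide⟩, ⟨![4, 5, 3, 1], by decide⟩]

theorem Linj : Function.Injective L := by decide +kernel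

theorem off' : ∀ a b c d : Fin 6, a ≠ b → b ≠ c → c ≠ d → (∃ k, (L k).1 = ![a, b, c, d]) ∨
    (∀ k, cnt (L k) a b = 0) ∨ (∀ k, cnt (L k) b c = 0) ∨ (∀ k, cnt (L k) c d = 0) := by
  decide +kernel

theorem off (w : Word 6 4) (h : w ∉ Set.range L) : ∃ i j, i ≠ j ∧ cnt w i j ≠ 0 ∧ ∀ k, cnt (L k) i j = 0 := by
  have p : ∀ s t : Fin 4, t.val = s.val + 1 → cnt w (w.1 s) (w.1 t) ≠ 0 := fun s t e =>
    Finset.card_ne_zero.mpr ⟨(s, t), by simp [e]⟩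
  rcases off' _ _ _ _ (w.2 0 1 rfl) (w.2 1 2 rfl) (w.2 2 3 rfl) with ⟨k, hk⟩ | h | h | h
  · refine absurd ⟨k, Subtype.ext (hk.trans ?_)⟩ h
    ext i; fin_cases i <;> rfl
  exacts [⟨_, _, w.2 0 1 rfl, p 0 1 rfl, h⟩, ⟨_, _, w.2 1 2 rfl, p 1 2 rfl, h⟩, ⟨_, _, w.2 2 3 rfl, p 2 3 rfl, h⟩]

theorem red {x : Word 6 4 → ℕ} (hx : ∀ w ∉ Set.range L, x w = 0) (f : Word 6 4 → ℕ) :
    ∑ w, f w * x w = ∑ k, f (L k) * x (L k) :=
  (Fintype.sum_of_injective L Linj _ _ (fun w h => by rw [hx w h, mul_zero]) fun _ => rfl).symm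

theorem ar (x y : Fin 8 → ℕ)
    (e0 : ∑ k, ![2, 1, 0, 0, 1, 1, 0, 0] k * x k = ∑ k, ![2, 1, 0, 0, 1, 1, 0, 0] k * y k)
    (e1 : ∑ k, ![1, 2, 0, 0, 1, 0, 0, 0] k * x k = ∑ k, ![1, 2, 0, 0, 1, 0, 0, 0] k * y k)
    (e2 : ∑ k, ![0, 0, 2, 1, 0, 0, 1, 0] k * x k = ∑ k, ![0, 0, 2, 1, 0, 0, 1, 0] k * y k)
    (e3 : ∑ k, ![0, 0, 1, 2, 0, 0, 1, 1] k * x k = ∑ k, ![0, 0, 1, 2, 0, 0, 1, 1] k * y k)
    (e4 : ∑ k, ![0, 0, 0, 0, 1, 1, 0, 0] k * x k = ∑ k, ![0, 0, 0, 0, 1, 1, 0, 0] k * y k)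
    (e5 : ∑ k, ![0, 0, 0, 0, 0, 0, 1, 1] k * x k = ∑ k, ![0, 0, 0, 0, 0, 0, 1, 1] k * y k)
    (e6 : ∑ k, ![0, 0, 0, 0, 0, 1, 0, 1] k * x k = ∑ k, ![0, 0, 0, 0, 0, 1, 0, 1] k * y k)
    (h : ∃ k, x k ≠ y k) : 9 ≤ ∑ k, (x k - y k) := by
  simp only [Fin.sum_univ_eight, Matrix.cons_val, Fin.exists_fin_succ, Fin.exists_fin_zero, Fin.reduceSucc,
    or_false] at *
  have : x 5 ≠ y 5 := by omega
  rcases this.lt_or_gt with h | h
  · have : x 5 + 3 ≤ y 5 := by omega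
    have : y 4 + 3 ≤ x 4 := by omega
    have : y 7 + 3 ≤ x 7 := by omega
    have : y 2 + 2 ≤ x 2 := by omega
    have : y 0 + 1 ≤ x 0 := by omega
    omega
  · have : y 5 + 3 ≤ x 5 := by omega
    have : y 6 + 3 ≤ x 6 := by omega
    have : y 1 + 2 ≤ x 1 := by omega
    have : y 3 + 1 ≤ x 3 := by omega
    omega

theorem key {x y : Word 6 4 → ℕ} (hx : ∀ w ∉ Set.range L, x w = 0)
    (h : ∀ i j, i ≠ j → ∑ w, cnt w i j * x w = ∑ w, cnt w i j * y w) (hne : x ≠ y) :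
    9 ≤ ∑ w, (x w - y w) ∧ 9 ≤ ∑ w, (y w - x w) := by
  have hy : ∀ w ∉ Set.range L, y w = 0 := fun w hw => by
    obtain ⟨i, j, ij, h1, h2⟩ := off w hw
    have := h i j ij
    rw [red hx, Finset.sum_eq_zero fun k _ => by rw [h2, zero_mul], eq_comm, Finset.sum_eq_zero_iff] at this
    exact (mul_eq_zero.mp (this w (Finset.mem_univ _))).resolve_left h1
  have a := red (x := fun w => x w - y w) (fun w hw => by simp [hx w hw]) fun _ => 1
  have b := red (x := fun w => y w - x w) (fun w hw => by simp [hy w hw]) fun _ => 1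
  simp only [one_mul] at a b
  have : ∃ k, x (L k) ≠ y (L k) := by
    by_contra hc
    push Not at hc
    refine hne (funext fun w => ?_)
    by_cases hw : w ∈ Set.range L
    · obtain ⟨k, rfl⟩ := hw; exact hc k
    · rw [hx w hw, hy w hw]
  simp only [red hx, red hy] at h
  have c0 : ∀ k, cnt (L k) 0 2 = ![2, 1, 0, 0, 1, 1, 0, 0] k := by decide +kernel
  have e0 := h 0 2 (by decide)
  have c1 : ∀ k, cnt (L k) 2 0 = ![1, 2, 0, 0, 1, 0, 0, 0] k := by decide +kernel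
  have e1 := h 2 0 (by decide)
  have c2 : ∀ k, cnt (L k) 1 3 = ![0, 0, 2, 1, 0, 0, 1, 0] k := by decide +kernel
  have e2 := h 1 3 (by decide)
  have c3 : ∀ k, cnt (L k) 3 1 = ![0, 0, 1, 2, 0, 0, 1, 1] k := by decide +kernel
  have e3 := h 3 1 (by decide)
  have c4 : ∀ k, cnt (L k) 5 0 = ![0, 0, 0, 0, 1, 1, 0, 0] k := by decide +kernel
  have e4 := h 5 0 (by decide)
  have c5 : ∀ k, cnt (L k) 5 3 = ![0, 0, 0, 0, 0, 0, 1, 1] k := by decide +kernel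
  have e5 := h 5 3 (by decide)
  have c6 : ∀ k, cnt (L k) 4 5 = ![0, 0, 0, 0, 0, 1, 0, 1] k := by decide +kernel
  have e6 := h 4 5 (by decide)
  simp only [c0, c1, c2, c3, c4, c5, c6] at e0 e1 e2 e3 e4 e5 e6
  rw [a, b]
  exact ⟨ar _ _ e0 e1 e2 e3 e4 e5 e6 this, ar _ _ e0.symm e1.symm e2.symm e3.symm e4.symm e5.symm e6.symm
    (this.imp fun _ h => h.symm)⟩

def u (w : Word 6 4) : ℕ := if w = L 1 then 2 else if w = L 3 then 1 else if w = L 5 ∨ w = L 6 then 3 else 0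
def v (w : Word 6 4) : ℕ := if w = L 0 then 1 else if w = L 2 then 2 else if w = L 4 ∨ w = L 7 then 3 else 0

theorem u0 (w : Word 6 4) (h : w ∉ Set.range L) : u w = 0 ∧ v w = 0 := by
  have : ∀ k, w ≠ L k := fun k e => h ⟨k, e.symm⟩
  simp [u, v, this]

theorem uv (i j : Fin 6) : ∑ w, cnt w i j * u w = ∑ w, cnt w i j * v w := by
  rw [red fun w h => (u0 w h).1, red fun w h => (u0 w h).2]
  revert i j
  decide +kernel

theorem une : u ≠ v := fun h => absurd (congrFun h (L 0)) (by decide +kernel)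

end Pool.Agent.H.MP_c5e1a2_co
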